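import Pool.Agent.H50.ODG.Targets

/-!
# odg_modules, row SME: congruent models
-/

set_option autoImplicit false

namespace Pool.Agent.H86.ODG

open Pool.Agent.H57.CP Pool.Agent.H39.TO Pool.Agent.H39.OD Pool.Agent.H50.ODG

lemma unit_na (u : ℚ) (α : ℝ) : mk (na u α) (na u α) = -1 := by
  unfold mk na cn sn
  simp only [Matrix.cons_val]
  have h1 := Real.sin_sq_add_cos_sq ((u : ℝ) * Real.pi)
  have h2 := Real.sin_sq_add_cos_sq α
  linear_combination (-1 : ℝ) * h1 - Real.sin ((u : ℝ) * Real.pi) ^ 2 * h2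

lemma unit_nb {u v w : ℚ} {α β : ℝ} (h : 1 < eL u v w α β) :
    mk (nb u v w α β) (nb u v w α β) = -1 := by
  have hS : eS u v w α β ^ 2 = eL u v w α β ^ 2 - 1 := by
    unfold eS
    exact Real.sq_sqrt (by nlinarith)
  unfold mk nb
  simp only [Matrix.cons_val]
  have h1 : sn v ^ 2 + cn v ^ 2 = 1 := Real.sin_sq_add_cos_sq ((v : ℝ) * Real.pi)
  have h2 := Real.sin_sq_add_cos_sq β
  linear_combination (-1 : ℝ) * h1 - sn v ^ 2 * h2 + sn v ^ 2 * Real.sin β ^ 2 * hS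

lemma unit_m1 : mk m1 m1 = -1 := by
  unfold mk m1
  simp [Matrix.cons_val]

lemma eL_swap (u v w : ℚ) (α β : ℝ) : eL v u w β α = eL u v w α β := by
  unfold eL kap
  rw [mul_comm (cn v) (cn u), mul_comm (sn v) (sn u), mul_comm (Real.cos β), mul_comm (Real.sin β)]

lemma mapG_one (K : Geo) : mapG 1 K = K := by
  unfold mapG
  have h : ((1 : Equiv.Perm H3) : H3 → H3) = id := rfl
  rw [h, Set.image_id]
  have h2 : (Set.image (id : H3 → H3)) = id := by
    funext s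
    exact Set.image_id s
  rw [h2, Set.image_id]
  have h3 : (Set.image (id : Set H3 → Set H3)) = id := by
    funext s
    exact Set.image_id s
  rw [h3, Set.image_id]

lemma mapG_mul (g h : Equiv.Perm H3) (K : Geo) : mapG (g * h) K = mapG g (mapG h K) := by
  unfold mapG
  have h1 : ((g * h : Equiv.Perm H3) : H3 → H3) = (g : H3 → H3) ∘ (h : H3 → H3) := rfl
  have h2 : Set.image ((g : H3 → H3) ∘ (h : H3 → H3)) =
      Set.image (g : H3 → H3) ∘ Set.image (h : H3 → H3) := by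
    funext s
    exact Set.image_comp _ _ s
  have h3 : Set.image (Set.image (g : H3 → H3) ∘ Set.image (h : H3 → H3)) =
      Set.image (Set.image (g : H3 → H3)) ∘ Set.image (Set.image (h : H3 → H3)) := by
    funext s
    exact Set.image_comp _ _ s
  rw [h1, h2, h3, Set.image_comp]
  rfl

lemma cong_trans {K K' K'' : Geo} (h1 : Cong K K') (h2 : Cong K' K'') : Cong K K'' := by
  obtain ⟨g, hg, rfl⟩ := h1
  obtain ⟨h, hh, rfl⟩ := h2
  refine ⟨h * g, fun x y => ?_, (mapG_mul h g K).symm⟩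
  change ch (h (g x)) (h (g y)) = ch x y
  rw [hh, hg]

theorem pf_SME (hMIM : T_MIM) (hSWM : T_SWM) (hCJA : T_CJA) (hKSW : T_KSW) (_hRFX : T_RFX) :
    T_SME := by
  have hmir : ∀ (u v w : ℚ) (α β : ℝ), 1 < eL u v w α β →
      Cong (ModD u v w α β) (ModD u v w (Real.pi - α) (Real.pi - β)) := by
    intro u v w α β hL
    obtain ⟨g, G, hg, hE, hLor, h0, h1, h2, h3, h4⟩ := hMIM u v w α β
    refine ⟨g, hg, ?_⟩
    unfold ModD
    rw [hCJA g G _ _ _ _ _ hg hE hLor (unit_na u α) (unit_nb hL) unit_m1, h0, h1, h2, h3, h4]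
  have hsw : ∀ (u v w : ℚ) (α β : ℝ), 1 < eL u v w α β →
      Cong (ModD u v w α β) (ModD v u w β α) := by
    intro u v w α β hL
    obtain ⟨g, G, hg, hE, hLor, h0, h1, h2, h3, h4⟩ := hSWM u v w α β hL
    refine ⟨g, hg, ?_⟩
    unfold ModD
    rw [hCJA g G _ _ _ _ _ hg hE hLor (unit_na u α) (unit_nb hL) unit_m1, h0, h1, h2, h3, h4,
      hKSW]
  intro u v w α β u' v' w' α' β' hL hS
  rcases hS with ⟨rfl, rfl, rfl, ⟨rfl, rfl⟩ | ⟨rfl, rfl⟩⟩ | ⟨rfl, rfl, rfl, ⟨rfl, rfl⟩ | ⟨rfl, rfl⟩⟩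
  · exact ⟨1, fun x y => rfl, (mapG_one _).symm⟩
  · exact hmir _ _ _ _ _ hL
  · exact hsw _ _ _ _ _ hL
  · refine cong_trans (hsw _ _ _ _ _ hL) (hmir _ _ _ _ _ ?_)
    rw [eL_swap]
    exact hL

end Pool.Agent.H86.ODG
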