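import Pool.Agent.H50.ODG.Targets

/-!
# odg_modules, rows XF1 and XF4: change of the mirror, families
-/

set_option autoImplicit false

namespace Pool.Agent.H86.ODG

open Pool.Agent.H57.CP Pool.Agent.H39.TO Pool.Agent.H39.OD Pool.Agent.H50.ODG

/-- the new configuration -/
lemma cf_new {k q : ℕ} {v w w' : ℚ} {x x' : H3} {n0 n1 n2 m : V4}
    (hC : Cf ((k : ℚ) / (q : ℚ)) v w x x' n0 n1 n2) (hS : St k q v w x x' n0 n1 n2 m)
    (hm : mk m n1 = cn w') : Cf (1 / (q : ℚ)) v w' x x' m n1 n2 where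
  u0 := hS.um
  u1 := hC.u1
  u2 := hC.u2
  e02 := by
    rw [hS.em]
    unfold cn
    push_cast
    congr 1
    ring
  e12 := hC.e12
  e01 := hm
  xa := hS.xm
  xc := hC.xc
  yb := hC.yb
  yc := hC.yc
  xb := hC.xb
  ya := hS.ym

lemma cn_half : cn (1 / 2) = 0 := by
  unfold cn
  push_cast
  rw [show (1 / 2 : ℝ) * Real.pi = Real.pi / 2 by ring, Real.cos_pi_div_two]

lemma cn_third : cn (1 / 3) = 1 / 2 := by
  unfold cn
  push_cast
  rw [show (1 / 3 : ℝ) * Real.pi = Real.pi / 3 by ring, Real.cos_pi_div_three]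

lemma sin_ne {k q : ℕ} (hk : 0 < k) (hq : k < q) : Real.sin (k * Real.pi / q) ≠ 0 := by
  have hq0 : (0 : ℝ) < q := by
    have : 0 < q := by omega
    exact_mod_cast this
  have hk0 : (0 : ℝ) < k := by exact_mod_cast hk
  have hkq : (k : ℝ) < q := by exact_mod_cast hq
  refine (Real.sin_pos_of_pos_of_lt_pi (by positivity) ?_).ne'
  rw [div_lt_iff₀ hq0]
  nlinarith [Real.pi_pos]

theorem pf_XF1 (hSTM : T_STM) (hXST : T_XST) (hXL1 : T_XL1) : T_XF1 := by
  intro p hodd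
  refine ⟨fun c x x' n0 n1 n2 hp hc hC => ?_, fun x x' n0 n1 n2 hp h3 hC => ?_⟩
  · have hC' : Cf (((2 : ℕ) : ℚ) / (p : ℚ)) (1 / c) (1 / c) x x' n0 n1 n2 := by
      rw [Nat.cast_ofNat]
      exact hC
    have hcop : Nat.Coprime 2 p := Nat.coprime_two_left.mpr hodd
    obtain ⟨m, hS⟩ := hSTM 2 p _ _ x x' n0 n1 n2 le_rfl (by omega) hcop hC'
    have hm : mk m n1 = cn (1 / ((2 : ℕ) : ℚ)) := by
      have h1 := hS.eq
      have h2 : ((((2 : ℕ) : ℝ) - 1) * Real.pi / p) = Real.pi / p := by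
        push_cast
        ring
      rw [h2, sub_self] at h1
      have h3 := (mul_eq_zero.mp h1).resolve_left (sin_ne (by norm_num) (by omega))
      rw [h3, Nat.cast_ofNat, cn_half]
    exact hXST 2 p _ _ x x' n0 n1 n2 m hC' hS
      (hXL1 p c 2 x x' m n1 n2 (by omega) hc le_rfl (cf_new hC' hS hm))
  · have hC' : Cf (((3 : ℕ) : ℚ) / (p : ℚ)) (1 / 3) (1 / p) x x' n0 n1 n2 := by
      rw [Nat.cast_ofNat]
      exact hC
    have hcop : Nat.Coprime 3 p := (Nat.Prime.coprime_iff_not_dvd (by norm_num)).mpr h3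
    obtain ⟨m, hS⟩ := hSTM 3 p _ _ x x' n0 n1 n2 (by norm_num) (by omega) hcop hC'
    have hm : mk m n1 = cn (1 / ((2 : ℕ) : ℚ)) := by
      have h1 := hS.eq
      have h2 : ((((3 : ℕ) : ℝ) - 1) * Real.pi / p) = 2 * (Real.pi / p) := by
        push_cast
        ring
      have h4 : cn (1 / p) = Real.cos (Real.pi / p) := by
        unfold cn
        push_cast
        congr 1
        ring
      rw [h2, Real.sin_two_mul, h4, cn_third] at h1
      have h5 : Real.sin (((3 : ℕ) : ℝ) * Real.pi / p) * mk m n1 = 0 := by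
        rw [h1]
        ring
      have h3 := (mul_eq_zero.mp h5).resolve_left (sin_ne (by norm_num) (by omega))
      rw [h3, Nat.cast_ofNat, cn_half]
    have hnew := cf_new hC' hS hm
    have hnew' : Cf (1 / (p : ℚ)) (1 / ((3 : ℕ) : ℚ)) (1 / ((2 : ℕ) : ℚ)) x x' m n1 n2 := by
      rw [Nat.cast_ofNat (n := 3)]
      exact hnew
    exact hXST 3 p _ _ x x' n0 n1 n2 m hC' hS
      (hXL1 p 3 2 x x' m n1 n2 (by omega) (by norm_num) le_rfl hnew')

theorem pf_XF4 (hSTM : T_STM) (hXST : T_XST) (hXA4 : T_XA4) (hXC3 : T_XC3) (hXVS : T_XVS)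
    (hCFI : T_CFI) (hC7 : T_C7) : T_XF4 := by
  obtain ⟨c, hc, heq, hc1, hc2, h17, h27, h37, h47⟩ := hC7
  have hsin : Real.sin (Real.pi / 7) ≠ 0 := by
    refine (Real.sin_pos_of_pos_of_lt_pi (by positivity) ?_).ne'
    linarith [Real.pi_pos]
  have hdbl : Real.sin (((2 : ℕ) : ℝ) * Real.pi / ((7 : ℕ) : ℝ)) = 2 * Real.sin (Real.pi / 7) * c := by
    rw [show ((2 : ℕ) : ℝ) * Real.pi / ((7 : ℕ) : ℝ) = 2 * (Real.pi / 7) by push_cast; ring,
      Real.sin_two_mul, hc]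
  have hone : Real.sin ((((2 : ℕ) : ℝ) - 1) * Real.pi / ((7 : ℕ) : ℝ)) = Real.sin (Real.pi / 7) := by
    congr 1
    push_cast
    ring
  have hone' : Real.sin (Real.pi / ((7 : ℕ) : ℝ)) = Real.sin (Real.pi / 7) := by
    rw [Nat.cast_ofNat]
  have hcop : Nat.Coprime 2 7 := by norm_num
  have hc0 : c ≠ 0 := by
    intro h
    rw [h] at hc1
    norm_num at hc1
  intro x x' n0 n1 n2
  refine ⟨fun hC => ?_, fun hI hC => ?_⟩
  · have hC' : Cf (((2 : ℕ) : ℚ) / ((7 : ℕ) : ℚ)) (1 / 3) (1 / 7) x x' n0 n1 n2 := by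
      rw [Nat.cast_ofNat, Nat.cast_ofNat]
      exact hC
    obtain ⟨m, hS⟩ := hSTM 2 7 _ _ x x' n0 n1 n2 le_rfl (by norm_num) hcop hC'
    have hm : mk m n1 = cn (3 / 7) := by
      have h1 := hS.eq
      rw [hdbl, hone, hone', h17, cn_third] at h1
      rw [h37]
      have h2 : Real.sin (Real.pi / 7) * (2 * c * mk m n1) =
          Real.sin (Real.pi / 7) * (c - 1 / 2) := by linear_combination h1
      have h3 := mul_left_cancel₀ hsin h2
      have h4 : 2 * c * mk m n1 = 2 * c * (4 * c ^ 3 - 3 * c) := by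
        rw [h3]
        linear_combination (-(c + 1 / 2)) * heq
      exact mul_left_cancel₀ (mul_ne_zero two_ne_zero hc0) h4
    have hnew := cf_new hC' hS hm
    have hnew2 : Cf (1 / 3) (1 / ((7 : ℕ) : ℚ)) (3 / ((7 : ℕ) : ℚ)) x' x n1 m n2 := by
      have := (hCFI _ _ _ _ _ _ _ _ hnew).2.2.1
      rw [Nat.cast_ofNat] at this ⊢
      exact this
    have h5 := hXA4 7 x' x n1 m n2 le_rfl hnew2
    exact hXST 2 7 _ _ x x' n0 n1 n2 m hC' hS ((hXVS _ _ _ _ _ _ _ _ hnew).mpr h5)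
  · have hC' : Cf (((2 : ℕ) : ℚ) / ((7 : ℕ) : ℚ)) (1 / 7) (1 / 3) x x' n0 n1 n2 := by
      rw [Nat.cast_ofNat, Nat.cast_ofNat]
      exact hC
    obtain ⟨m, hS⟩ := hSTM 2 7 _ _ x x' n0 n1 n2 le_rfl (by norm_num) hcop hC'
    have hm : mk m n1 = cn (4 / 7) := by
      have h1 := hS.eq
      rw [hdbl, hone, hone', h17, cn_third] at h1
      rw [h47]
      have h2 : Real.sin (Real.pi / 7) * (2 * c * mk m n1) =
          Real.sin (Real.pi / 7) * (1 / 2 - c) := by linear_combination h1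
      have h3 := mul_left_cancel₀ hsin h2
      have h4 : 2 * c * mk m n1 = 2 * c * (-(4 * c ^ 3 - 3 * c)) := by
        rw [h3]
        linear_combination (c + 1 / 2) * heq
      exact mul_left_cancel₀ (mul_ne_zero two_ne_zero hc0) h4
    have hnew := cf_new hC' hS hm
    have hnew2 : Cf (1 / ((7 : ℕ) : ℚ)) (1 / ((7 : ℕ) : ℚ)) (4 / ((7 : ℕ) : ℚ)) x x' m n1 n2 := by
      rw [Nat.cast_ofNat] at hnew ⊢
      exact hnew
    exact hXST 2 7 _ _ x x' n0 n1 n2 m hC' hS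
      (hXC3 7 x x' m n1 n2 le_rfl hnew2 (fun h => hI (hS.is.mpr h)))

end Pool.Agent.H86.ODG
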