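import Pool.Agent.H50.ODG.Targets

/-!
# odg_modules, row XST: change of the mirror
-/

set_option autoImplicit false

namespace Pool.Agent.H86.ODG

open Pool.Agent.H57.CP Pool.Agent.H39.TO Pool.Agent.H39.OD Pool.Agent.H50.ODG

theorem pf_XST (hVSR : T_VSR) : T_XST := by
  intro k q v w x x' n0 n1 n2 m _ hS hX
  have h1 : C2 m n2 = C2 n0 n2 := by
    apply le_antisymm
    · refine Submonoid.closure_le.mpr ?_
      rintro g (rfl | rfl)
      · exact hS.gm
      · exact Submonoid.subset_closure (Or.inr rfl)
    · refine Submonoid.closure_le.mpr ?_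
      rintro g (rfl | rfl)
      · exact hS.g0
      · exact Submonoid.subset_closure (Or.inr rfl)
  have h2 : Gam n0 n1 n2 ≤ Gam m n1 n2 := by
    refine Submonoid.closure_le.mpr ?_
    rintro g (rfl | rfl | rfl)
    · have h3 : C2 m n2 ≤ Gam m n1 n2 := by
        refine Submonoid.closure_mono ?_
        rintro g (rfl | rfl)
        · exact Or.inl rfl
        · exact Or.inr (Or.inr rfl)
      exact h3 hS.g0
    · exact Submonoid.subset_closure (Or.inr (Or.inl rfl))
    · exact Submonoid.subset_closure (Or.inr (Or.inr rfl))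
  have h4 := hVSR.1 _ _ _ _ _ _ h2 hX
  unfold XV
  rw [← h1]
  exact h4

end Pool.Agent.H86.ODG
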